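import Pool.Agent.H33.HH.TD

namespace Pool.Agent.H50.HH

open Pool.Agent.H33.HH Pool.Agent.H28.RC Pool.Agent.H37.CV
open NumberField

/-- the arithmetic of the assembly -/
theorem hal_arith {ε c η A B1 B2 a b X : ℝ} (hc : 0 ≤ c) (hε0 : 0 < ε) (hε : ε ≤ 1 / 2)
    (hη : η = ε * c / 12) (h1 : a = B1 + B2 + A) (hA : (1 / 2 - ε / 4) * A ≤ b)
    (hB1 : B1 ≤ η * X ^ 2) (hB2 : B2 ≤ η * X ^ 2) (hlow : c / 9 * X ^ 2 ≤ a) :
    (1 / 2 - ε) * a ≤ b := by
  have hA' : a - 2 * (η * X ^ 2) ≤ A := by linarith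
  have h2 : 0 ≤ 1 / 2 - ε / 4 := by linarith
  have h3 : (1 / 2 - ε / 4) * (a - 2 * (η * X ^ 2)) ≤ b :=
    (mul_le_mul_of_nonneg_left hA' h2).trans hA
  have h5 : (3 * ε / 4) * (c / 9 * X ^ 2) ≤ (3 * ε / 4) * a :=
    mul_le_mul_of_nonneg_left hlow (by linarith)
  have h6 : η * X ^ 2 = ε * (c * X ^ 2) / 12 := by rw [hη]; ring
  rw [h6] at h3
  have h7 : 0 ≤ ε * (ε * (c * X ^ 2)) := by positivity
  nlinarith [h3, h5, h7]

theorem pf_HAL (h1 : T_KA) (h2 : T_TAI) (h3 : T_REA) (h4 : T_FDS) : T_HAL := by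
  intro K _ _ hK ε0 hε00
  obtain ⟨C, hC, hTAI⟩ := h2
  have hTAI' := hTAI K hK
  -- reduction to a small ε
  set ε := min ε0 (1 / 2) with hεdef
  have hε0 : 0 < ε := lt_min hε00 (by norm_num)
  have hε : ε ≤ 1 / 2 := min_le_right _ _
  have hεε : ε ≤ ε0 := min_le_left _ _
  -- the field of discriminant -3
  have h3f : IsFund (-3) := by
    left
    refine ⟨by norm_num, ?_, by norm_num⟩
    exact Int.squarefree_natAbs.1 Nat.prime_three.squarefree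
  have i3 : IQ (K (-3)) := ⟨(hK _ h3f).1, by rw [(hK _ h3f).2]; norm_num⟩
  obtain ⟨c, x3, hc, hx3, hlow⟩ := (h1 (K (-3))).1
  set η := ε * c / 12 with hη
  have hη0 : 0 < η := by positivity
  set M := max 1 (C / η) with hM
  have hM1 : 1 ≤ M := le_max_left _ _
  have hMC : C ≤ η * M := by
    have : C / η ≤ M := le_max_right _ _
    rw [div_le_iff₀ hη0] at this
    linarith
  set Y := M ^ 4 with hY
  have hY1 : 1 ≤ Y := one_le_pow₀ hM1
  have hYC : C * Y ^ (-(1 / 4) : ℝ) ≤ η := by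
    have e : Y ^ (-(1 / 4) : ℝ) = M⁻¹ := by
      rw [hY, ← Real.rpow_natCast, ← Real.rpow_mul (by linarith)]
      norm_num
      exact Real.rpow_neg_one M
    rw [e, ← div_eq_mul_inv, div_le_iff₀ (by linarith)]
    exact hMC
  set N : ℝ := ((Fd' Y).card : ℝ) with hN
  have hN0 : 0 ≤ N := Nat.cast_nonneg _
  have hε' : 0 < η / (N + 1) := by positivity
  have hloc : ∀ d : ℤ, ∃ x0 : ℝ, 1 ≤ x0 ∧ (IsFund d → ∀ x, x0 ≤ x →
      (d < 0 → (1 / 2 - ε / 4) * ((Ui (K d) x).ncard : ℝ) ≤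
        ({χ : RCC (K d) | χ ∈ Ui (K d) x ∧ NV χ}.ncard : ℝ)) ∧
      (0 < d → ((Al (K d) x).ncard : ℝ) ≤ η / (N + 1) * x ^ 2)) := by
    intro d
    by_cases hd : IsFund d
    · rcases lt_trichotomy d 0 with h | h | h
      · have : IQ (K d) := ⟨(hK _ hd).1, by rw [(hK _ hd).2]; exact h⟩
        obtain ⟨x0, hx0, hh⟩ := (h1 (K d)).2 (ε / 4) (by linarith)
        exact ⟨x0, hx0, fun _ x hx => ⟨fun _ => (hh x hx).2, fun h' => absurd h' (by omega)⟩⟩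
      · exact ⟨1, le_rfl, fun _ x _ => ⟨fun h' => absurd h' (by omega), fun h' => absurd h' (by omega)⟩⟩
      · obtain ⟨x0, hx0, hh⟩ := h3 (K d) (hK _ hd).1 (by rw [(hK _ hd).2]; exact h) _ hε'
        exact ⟨x0, hx0, fun _ x hx => ⟨fun h' => absurd h' (by omega), fun _ => (hh x hx).2⟩⟩
    · exact ⟨1, le_rfl, fun h' => absurd h' hd⟩
  choose x0 hx0 hloc' using hloc
  refine ⟨1 + Y + 3 * x3 + ∑ d ∈ Fd' Y, |(d : ℝ)| * x0 d, fun X hX => ?_⟩
  have hsum0 : 0 ≤ ∑ d ∈ Fd' Y, |(d : ℝ)| * x0 d :=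
    Finset.sum_nonneg fun d _ => mul_nonneg (abs_nonneg _) (by linarith [hx0 d])
  have hX1 : 1 ≤ X := by linarith
  have hX0 : 0 ≤ X := by linarith
  have hXY : Y ≤ X := by linarith
  have hX3 : 3 * x3 ≤ X := by linarith
  have hXd : ∀ d ∈ Fd' Y, |(d : ℝ)| * x0 d ≤ X := fun d hd => by
    have := Finset.single_le_sum (f := fun d : ℤ => |(d : ℝ)| * x0 d)
      (fun d _ => mul_nonneg (abs_nonneg _) (by linarith [hx0 d])) hd
    linarith
  obtain ⟨hfinA, htail⟩ := hTAI' X Y hX1 hY1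
  have hfund : ∀ (Z : ℝ) (d : ℤ), d ∈ Fd' Z → IsFund d := fun Z d hd => by
    classical
    simp only [Fd', Finset.mem_filter] at hd
    exact hd.2
  have hsub : ∀ d : ℤ, Ui (K d) (X / |(d : ℝ)|) ⊆ Al (K d) (X / |(d : ℝ)|) := fun d χ h => h.2
  have hfinU : ∀ d ∈ Fd' X, (Ui (K d) (X / |(d : ℝ)|)).Finite := fun d hd =>
    (hfinA d hd).subset (hsub d)
  refine ⟨hfinU, ?_⟩
  have hUA : ∀ d ∈ Fd' X, ((Ui (K d) (X / |(d : ℝ)|)).ncard : ℝ) ≤
      ((Al (K d) (X / |(d : ℝ)|)).ncard : ℝ) := fun d hd => by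
    exact_mod_cast Set.ncard_le_ncard (hsub d) (hfinA d hd)
  -- splitting
  set a : ℤ → ℝ := fun d => ((Ui (K d) (X / |(d : ℝ)|)).ncard : ℝ) with ha
  set b : ℤ → ℝ := fun d =>
    ({χ : RCC (K d) | χ ∈ Ui (K d) (X / |(d : ℝ)|) ∧ NV χ}.ncard : ℝ) with hb
  have ha0 : ∀ d, 0 ≤ a d := fun d => Nat.cast_nonneg _
  have hb0 : ∀ d, 0 ≤ b d := fun d => Nat.cast_nonneg _
  set F1 := (Fd' X).filter (fun d : ℤ => Y < |(d : ℝ)|) with hF1
  set F2 := (Fd' X).filter (fun d : ℤ => ¬ Y < |(d : ℝ)|) with hF2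
  have hF2Y : ∀ d ∈ F2, d ∈ Fd' Y := fun d hd => by
    obtain ⟨hd1, hd2⟩ := Finset.mem_filter.1 hd
    exact ((h4 d (hfund X d hd1)).2 Y (by linarith)).2 (not_lt.1 hd2)
  have hsplit : ∑ d ∈ Fd' X, a d = ∑ d ∈ F1, a d + ∑ d ∈ F2.filter (fun d => ¬ d < 0), a d +
      ∑ d ∈ F2.filter (fun d => d < 0), a d := by
    rw [add_assoc, add_comm (∑ d ∈ F2.filter (fun d => ¬ d < 0), a d),
      Finset.sum_filter_add_sum_filter_not F2 (fun d => d < 0),
      Finset.sum_filter_add_sum_filter_not (Fd' X) (fun d : ℤ => Y < |(d : ℝ)|)]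
  have hB1 : ∑ d ∈ F1, a d ≤ η * X ^ 2 := by
    calc ∑ d ∈ F1, a d ≤ ∑ d ∈ F1, ((Al (K d) (X / |(d : ℝ)|)).ncard : ℝ) :=
          Finset.sum_le_sum fun d hd => hUA d (Finset.mem_filter.1 hd).1
      _ ≤ C * X ^ 2 * Y ^ (-(1 / 4) : ℝ) := htail
      _ = (C * Y ^ (-(1 / 4) : ℝ)) * X ^ 2 := by ring
      _ ≤ η * X ^ 2 := mul_le_mul_of_nonneg_right hYC (sq_nonneg _)
  have habs : ∀ d : ℤ, IsFund d → 1 ≤ |(d : ℝ)| := fun d hd => by linarith [(h4 d hd).1]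
  have hdom : ∀ d ∈ F2, x0 d ≤ X / |(d : ℝ)| := fun d hd => by
    have hdY := hF2Y d hd
    rw [le_div_iff₀ (by linarith [habs d (hfund Y d hdY)])]
    linarith [hXd d hdY]
  have hB2 : ∑ d ∈ F2.filter (fun d => ¬ d < 0), a d ≤ η * X ^ 2 := by
    have hterm : ∀ d ∈ F2.filter (fun d => ¬ d < 0), a d ≤ η / (N + 1) * X ^ 2 := by
      intro d hd
      obtain ⟨hd1, hd2⟩ := Finset.mem_filter.1 hd
      have hfd := hfund Y d (hF2Y d hd1)
      have hdX : d ∈ Fd' X := (Finset.mem_filter.1 hd1).1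
      have hd0 : d ≠ 0 := by
        rintro rfl
        have := habs 0 hfd
        norm_num at this
      have hpos : 0 < d := lt_of_le_of_ne (not_lt.1 hd2) (Ne.symm hd0)
      have h5 := (hloc' d hfd _ (hdom d hd1)).2 hpos
      refine (hUA d hdX).trans (h5.trans ?_)
      refine mul_le_mul_of_nonneg_left ?_ hε'.le
      have h6 : X / |(d : ℝ)| ≤ X := div_le_self hX0 (habs d hfd)
      exact pow_le_pow_left₀ (div_nonneg hX0 (abs_nonneg _)) h6 2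
    calc ∑ d ∈ F2.filter (fun d => ¬ d < 0), a d
        ≤ ∑ _d ∈ F2.filter (fun d => ¬ d < 0), η / (N + 1) * X ^ 2 := Finset.sum_le_sum hterm
      _ = ((F2.filter (fun d => ¬ d < 0)).card : ℝ) * (η / (N + 1) * X ^ 2) := by
          rw [Finset.sum_const, nsmul_eq_mul]
      _ ≤ (N + 1) * (η / (N + 1) * X ^ 2) := by
          refine mul_le_mul_of_nonneg_right ?_ (by positivity)
          have : (F2.filter (fun d => ¬ d < 0)).card ≤ (Fd' Y).card :=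
            Finset.card_le_card fun d hd => hF2Y d (Finset.mem_filter.1 hd).1
          have h7 : ((F2.filter (fun d => ¬ d < 0)).card : ℝ) ≤ N := by
            rw [hN]; exact_mod_cast this
          linarith
      _ = η * X ^ 2 := by field_simp
  have hA : (1 / 2 - ε / 4) * ∑ d ∈ F2.filter (fun d => d < 0), a d ≤ ∑ d ∈ Fd' X, b d := by
    rw [Finset.mul_sum]
    calc ∑ d ∈ F2.filter (fun d => d < 0), (1 / 2 - ε / 4) * a d
        ≤ ∑ d ∈ F2.filter (fun d => d < 0), b d := by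
          refine Finset.sum_le_sum fun d hd => ?_
          obtain ⟨hd1, hd2⟩ := Finset.mem_filter.1 hd
          exact (hloc' d (hfund Y d (hF2Y d hd1)) _ (hdom d hd1)).1 hd2
      _ ≤ ∑ d ∈ Fd' X, b d := by
          refine Finset.sum_le_sum_of_subset_of_nonneg ?_ fun d _ _ => hb0 d
          exact (Finset.filter_subset _ _).trans (Finset.filter_subset _ _)
  have hlow' : c / 9 * X ^ 2 ≤ ∑ d ∈ Fd' X, a d := by
    have h3X : (-3 : ℤ) ∈ Fd' X := by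
      refine ((h4 (-3) h3f).2 X hX0).2 ?_
      have : |((-3 : ℤ) : ℝ)| = 3 := by norm_num
      rw [this]
      linarith
    have h8 : c * (X / 3) ^ 2 ≤ a (-3) := by
      have := hlow (X / 3) (by linarith)
      have e : |((-3 : ℤ) : ℝ)| = 3 := by norm_num
      simp only [ha, e]
      exact this
    calc c / 9 * X ^ 2 = c * (X / 3) ^ 2 := by ring
      _ ≤ a (-3) := h8
      _ ≤ ∑ d ∈ Fd' X, a d := Finset.single_le_sum (fun d _ => ha0 d) h3X
  have hfin := hal_arith hc.le hε0 hε hη hsplit hA hB1 hB2 hlow'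
  have hs0 : 0 ≤ ∑ d ∈ Fd' X, a d := Finset.sum_nonneg fun d _ => ha0 d
  calc (1 / 2 - ε0) * ∑ d ∈ Fd' X, a d ≤ (1 / 2 - ε) * ∑ d ∈ Fd' X, a d :=
        mul_le_mul_of_nonneg_right (by linarith) hs0
    _ ≤ ∑ d ∈ Fd' X, b d := hfin

end Pool.Agent.H50.HH
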