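import Pool.Agent.H33.HH.TC

namespace Pool.Agent.H50.HH

open Pool.Agent.H33.HH Pool.Agent.H28.RC Pool.Agent.H37.CV
open NumberField
open scoped nonZeroDivisors

theorem spanSingleton_neg' {R K : Type*} [CommRing R] [IsDomain R] [Field K] [Algebra R K]
    [IsFractionRing R K] (x : K) :
    FractionalIdeal.spanSingleton R⁰ (-x) = FractionalIdeal.spanSingleton R⁰ x := by
  have h : FractionalIdeal.spanSingleton R⁰ (-1 : K) = 1 := by
    apply le_antisymm
    · rw [FractionalIdeal.spanSingleton_le_iff_mem, ← FractionalIdeal.spanSingleton_one,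
        FractionalIdeal.mem_spanSingleton]
      exact ⟨-1, by simp⟩
    · rw [← FractionalIdeal.spanSingleton_one, FractionalIdeal.spanSingleton_le_iff_mem,
        FractionalIdeal.mem_spanSingleton]
      exact ⟨-1, by simp⟩
  have e : (-x : K) = (-1) * x := by ring
  rw [e, ← FractionalIdeal.spanSingleton_mul_spanSingleton, h, one_mul]

theorem pf_UN2 (h : T_NRM) : T_UN2 := by
  intro K _ _ _ P Q W A B k γ hA hB hM
  have hγ : γ ≠ 0 := by
    rintro rfl
    apply hA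
    have h1 := hM
    unfold Mu at h1
    rw [FractionalIdeal.spanSingleton_zero, zero_mul] at h1
    exact FractionalIdeal.coeIdeal_eq_zero.1 h1.symm
  have hn : ‖em K γ‖ ^ 2 * nm B = nm A := (h K).2.2.2.2.2.2 γ B A hM
  have hmu : ∀ X : Ideal (𝓞 K), Mu (γ⁻¹ - 1) A X ↔ Mu (γ - 1) B X := by
    intro X
    have e : FractionalIdeal.spanSingleton (𝓞 K)⁰ (γ⁻¹ - 1) * (A : FractionalIdeal (𝓞 K)⁰ K) =
        FractionalIdeal.spanSingleton (𝓞 K)⁰ (γ - 1) * (B : FractionalIdeal (𝓞 K)⁰ K) := by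
      have hM' : FractionalIdeal.spanSingleton (𝓞 K)⁰ γ * (B : FractionalIdeal (𝓞 K)⁰ K) =
        (A : FractionalIdeal (𝓞 K)⁰ K) := hM
      rw [← hM', ← mul_assoc, FractionalIdeal.spanSingleton_mul_spanSingleton]
      have e2 : (γ⁻¹ - 1) * γ = -(γ - 1) := by
        field_simp
        ring
      rw [e2, spanSingleton_neg']
    unfold Mu
    rw [e]
  have hnorm : ‖em K γ⁻¹ - 1‖ ^ 2 * nm A = ‖em K γ - 1‖ ^ 2 * nm B := by
    have hem : em K γ ≠ 0 := (map_ne_zero (em K)).2 hγ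
    have e1 : em K γ⁻¹ - 1 = -((em K γ - 1) / em K γ) := by
      rw [map_inv₀]
      field_simp
      ring
    rw [e1, norm_neg, norm_div, ← hn]
    have : ‖em K γ‖ ≠ 0 := norm_ne_zero_iff.2 hem
    field_simp
  unfold Uw
  refine tsum_congr fun l => ?_
  have hiff : (∃ q, q ≠ ⊥ ∧ Cp P q ∧ Mu (γ⁻¹ - 1) A (k * l.1 * q)) ↔
      ∃ q, q ≠ ⊥ ∧ Cp P q ∧ Mu (γ - 1) B (k * l.1 * q) := by
    simp only [hmu]
  by_cases hc : ∃ q, q ≠ ⊥ ∧ Cp P q ∧ Mu (γ - 1) B (k * l.1 * q)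
  · rw [if_pos (hiff.2 hc), if_pos hc, hnorm]
  · rw [if_neg (fun h' => hc (hiff.1 h')), if_neg hc]

end Pool.Agent.H50.HH
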