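import Pool.Agent.H33.HH.TD
import Pool.Agent.H46.HH.NRM
import Pool.Agent.H37.CV.All

namespace Pool.Agent.H50.HH

open Pool.Agent.H33.HH Pool.Agent.H28.RC Pool.Agent.H37.CV
open NumberField

section gen

variable {K : Type} [Field K] [NumberField K]

theorem upt_fin (x : ℝ) : {I : Ideal (𝓞 K) | nm I ≤ x}.Finite :=
  (Ideal.finite_setOfPred_absNorm_le ⌊x⌋₊).subset fun I (h : nm I ≤ x) => by
    have h' : (Ideal.absNorm I : ℝ) ≤ x := h
    exact Nat.le_floor h'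

theorem upt_one {I : Ideal (𝓞 K)} (hI : I ≠ ⊥) : 1 ≤ nm I := by
  have h : Ideal.absNorm I ≠ 0 := fun h => hI (Ideal.absNorm_eq_zero_iff.1 h)
  have h1 : 1 ≤ Ideal.absNorm I := Nat.one_le_iff_ne_zero.2 h
  have h2 : (1 : ℝ) ≤ (Ideal.absNorm I : ℝ) := by exact_mod_cast h1
  exact h2

theorem upt_nonneg (I : Ideal (𝓞 K)) : 0 ≤ nm I := Nat.cast_nonneg _

theorem upt_mul (I J : Ideal (𝓞 K)) : nm (I * J) = nm I * nm J := by
  unfold nm
  rw [map_mul, Nat.cast_mul]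

theorem upt_cop {P : ℝ} {k q : Ideal (𝓞 K)} (hk : Sm' P k) (hq : Cp P q) : k ⊔ q = ⊤ := by
  by_contra h
  obtain ⟨m, hm, hle⟩ := Ideal.exists_le_maximal _ h
  have hne : m ≠ ⊥ := by
    rintro rfl
    exact hk.1 (le_bot_iff.1 (le_sup_left.trans hle))
  have h1 := hk.2 ⟨m, hm.isPrime, hne⟩ (le_sup_left.trans hle)
  have h2 := hq ⟨m, hm.isPrime, hne⟩ (le_sup_right.trans hle)
  linarith

theorem upt_top (P : ℝ) : Sm' P (⊤ : Ideal (𝓞 K)) := by
  refine ⟨top_ne_bot, fun p hp => ?_⟩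
  exact absurd (top_le_iff.1 hp) p.2.1.ne_top

/-- the sum of the norms of the ideals prime to the small primes -/
noncomputable def uS (K : Type) [Field K] [NumberField K] (P y : ℝ) : ℝ :=
  ∑ᶠ q ∈ {q : Ideal (𝓞 K) | q ≠ ⊥ ∧ Cp P q ∧ nm q ≤ y}, nm q

theorem uS_nonneg (P y : ℝ) : 0 ≤ uS K P y :=
  finsum_nonneg fun q => finsum_nonneg fun _ => upt_nonneg q

theorem uS_ge (P y : ℝ) (T : Finset (Ideal (𝓞 K)))
    (hT : ∀ q ∈ T, q ≠ ⊥ ∧ Cp P q ∧ nm q ≤ y) : ∑ q ∈ T, nm q ≤ uS K P y := by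
  have hfin : {q : Ideal (𝓞 K) | q ≠ ⊥ ∧ Cp P q ∧ nm q ≤ y}.Finite :=
    (upt_fin y).subset fun q h => h.2.2
  unfold uS
  rw [finsum_mem_eq_finite_toFinset_sum _ hfin]
  refine Finset.sum_le_sum_of_subset_of_nonneg (fun q hq => ?_) fun q _ _ => upt_nonneg q
  rw [Set.Finite.mem_toFinset]
  exact hT q hq

theorem upt_phs (h2 : T_PHM) (h3 : T_FAC) (h7 : T_PHN) (P x : ℝ)
    (F Kf : Finset (Ideal (𝓞 K))) (hF : ∀ f ∈ F, f ≠ ⊥ ∧ nm f ≤ x)
    (hKf : ∀ k, k ∈ Kf ↔ Sm' P k ∧ nm k ≤ x) :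
    ∑ f ∈ F, phs f ≤ ∑ k ∈ Kf, phs k * uS K P (x / nm k) := by
  classical
  choose! g hg using fun (f : Ideal (𝓞 K)) (hf : f ≠ ⊥) => (h3 K P f hf).exists
  have hg' : ∀ f ∈ F, Sm' P (g f).1 ∧ (g f).2 ≠ ⊥ ∧ Cp P (g f).2 ∧ f = (g f).1 * (g f).2 :=
    fun f hf => hg f (hF f hf).1
  have hnm : ∀ f ∈ F, nm f = nm (g f).1 * nm (g f).2 := fun f hf => by
    have := (hg' f hf).2.2.2
    calc nm f = nm ((g f).1 * (g f).2) := by rw [← this]
      _ = _ := upt_mul _ _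
  have hmaps : ∀ f ∈ F, (g f).1 ∈ Kf := by
    intro f hf
    rw [hKf]
    obtain ⟨a, b, c, d⟩ := hg' f hf
    refine ⟨a, ?_⟩
    have e1 := hnm f hf
    have e2 := (hF f hf).2
    have e3 := upt_one b
    have e4 := upt_nonneg (g f).1
    nlinarith
  have hterm : ∀ f ∈ F, phs f ≤ phs (g f).1 * nm (g f).2 := by
    intro f hf
    obtain ⟨a, b, c, d⟩ := hg' f hf
    have e1 : phs f = phs (g f).1 * phs (g f).2 := by
      calc phs f = phs ((g f).1 * (g f).2) := by rw [← d]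
        _ = _ := (h2 K).1 _ _ a.1 b (upt_cop a c)
    rw [e1]
    refine mul_le_mul_of_nonneg_left ?_ ((h2 K).2.2 _ a.1).1
    exact ((h2 K).2.2 _ b).2.1.trans ((h7 K).1 _ b).2.2
  calc ∑ f ∈ F, phs f ≤ ∑ f ∈ F, phs (g f).1 * nm (g f).2 := Finset.sum_le_sum hterm
    _ = ∑ k ∈ Kf, ∑ f ∈ F with (g f).1 = k, phs (g f).1 * nm (g f).2 :=
        (Finset.sum_fiberwise_of_maps_to hmaps _).symm
    _ ≤ ∑ k ∈ Kf, phs k * uS K P (x / nm k) := by
        refine Finset.sum_le_sum fun k hk => ?_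
        obtain ⟨hk1, hk2⟩ := (hKf k).1 hk
        have hkpos : 0 < nm k := by linarith [upt_one hk1.1]
        have e1 : ∑ f ∈ F with (g f).1 = k, phs (g f).1 * nm (g f).2 =
            phs k * ∑ f ∈ F with (g f).1 = k, nm (g f).2 := by
          rw [Finset.mul_sum]
          refine Finset.sum_congr rfl fun f hf => ?_
          rw [(Finset.mem_filter.1 hf).2]
        rw [e1]
        refine mul_le_mul_of_nonneg_left ?_ ((h2 K).2.2 _ hk1.1).1
        have hinj : Set.InjOn (fun f => (g f).2) (F.filter fun f => (g f).1 = k : Finset _) := by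
          intro f hf f' hf' he
          rw [Finset.mem_coe, Finset.mem_filter] at hf hf'
          have he' : (g f).2 = (g f').2 := he
          rw [(hg' f hf.1).2.2.2, (hg' f' hf'.1).2.2.2, hf.2, hf'.2, he']
        have e2 : ∑ f ∈ F with (g f).1 = k, nm (g f).2 =
            ∑ q ∈ (F.filter fun f => (g f).1 = k).image fun f => (g f).2, nm q :=
          (Finset.sum_image hinj).symm
        rw [e2]
        refine uS_ge P _ _ fun q hq => ?_
        obtain ⟨f, hf, rfl⟩ := Finset.mem_image.1 hq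
        obtain ⟨hf1, hf2⟩ := Finset.mem_filter.1 hf
        obtain ⟨a, b, c, d⟩ := hg' f hf1
        refine ⟨b, c, ?_⟩
        rw [le_div_iff₀ hkpos]
        have e3 := hnm f hf1
        rw [hf2] at e3
        have e4 := (hF f hf1).2
        linarith

end gen

/-- the errors are small -/
theorem upt_small {D η : ℝ} (hD : 0 ≤ D) (hη : 0 < η) : ∃ x₀ : ℝ, 1 ≤ x₀ ∧ ∀ x : ℝ, x₀ ≤ x →
    D * x ^ (7 / 4 : ℝ) ≤ η * x ^ 2 := by
  refine ⟨(D / η + 1) ^ 4, one_le_pow₀ (by linarith [div_nonneg hD hη.le]), fun x hx => ?_⟩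
  have hm : 1 ≤ D / η + 1 := by linarith [div_nonneg hD hη.le]
  have hx1 : 1 ≤ x := (one_le_pow₀ hm).trans hx
  have hx0 : 0 < x := by linarith
  have h1 : D / η + 1 ≤ x ^ (1 / 4 : ℝ) := by
    have h2 : ((D / η + 1) ^ 4) ^ (1 / 4 : ℝ) ≤ x ^ (1 / 4 : ℝ) :=
      Real.rpow_le_rpow (by positivity) hx (by norm_num)
    have h3 : ((D / η + 1) ^ 4) ^ (1 / 4 : ℝ) = D / η + 1 := by
      rw [← Real.rpow_natCast, ← Real.rpow_mul (by linarith)]
      norm_num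
    rwa [h3] at h2
  have h4 : D ≤ η * x ^ (1 / 4 : ℝ) := by
    have h5 : D / η ≤ x ^ (1 / 4 : ℝ) := by linarith
    rw [div_le_iff₀ hη] at h5
    linarith
  have h6 : x ^ 2 = x ^ (1 / 4 : ℝ) * x ^ (7 / 4 : ℝ) := by
    rw [← Real.rpow_add hx0, ← Real.rpow_natCast]
    norm_num
  rw [h6, ← mul_assoc]
  exact mul_le_mul_of_nonneg_right h4 (Real.rpow_nonneg hx0.le _)

theorem upt_two (K : Type) [Field K] [NumberField K] (p : PrI K) : 2 ≤ np p := by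
  have h0 : Ideal.absNorm p.1 ≠ 0 := fun h => p.2.2 (Ideal.absNorm_eq_zero_iff.1 h)
  have h1 : Ideal.absNorm p.1 ≠ 1 := fun h => p.2.1.ne_top (Ideal.absNorm_eq_one_iff.1 h)
  have h2 : 2 ≤ Ideal.absNorm p.1 := by omega
  have h3 : (2 : ℝ) ≤ (Ideal.absNorm p.1 : ℝ) := by exact_mod_cast h2
  exact h3

theorem upt_rk (K : Type) [Field K] [NumberField K] [IQ K] (P : ℝ) :
    0 < rk K P ∧ 0 < hc K / wu K := by
  have h1 : 0 < wu K := (Pool.Agent.H46.HH.pf_NRM K).2.1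
  have h3 : 0 < hc K := by
    unfold hc
    exact_mod_cast classNumber_pos K
  refine ⟨?_, div_pos h3 h1⟩
  unfold rk
  refine mul_pos ?_ (Finset.prod_pos fun p _ => ?_)
  · unfold rh
    have h2 : 0 < sd K := by
      unfold sd
      refine Real.sqrt_pos.2 (abs_pos.2 ?_)
      exact_mod_cast discr_ne_zero K
    positivity
  · have := upt_two K p
    rw [sub_pos, div_lt_one (by linarith)]
    linarith

theorem pf_UPT (h1 : T_NPR) (h2 : T_PHM) (h3 : T_FAC) (h4 : T_SMK) (h5 : T_SQN) (h6 : T_IEX)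
    (h7 : T_PHN) : T_UPT := by
  classical
  intro K _ _ _ P ε hε
  have : IsTotallyComplex K := (Pool.Agent.H46.HH.pf_NRM K).1
  obtain ⟨hr, ha⟩ := upt_rk K P
  set r := rk K P with hrdef
  set a := hc K / wu K with hadef
  obtain ⟨C1, hC1, hN⟩ := h1 K
  obtain ⟨C2, hC2⟩ := (a_DV K).2
  have hC2' : 0 ≤ C2 := by
    have := (hC2 1 ∅ le_rfl (by simp)).1
    simpa using this
  obtain ⟨C3, hC3, hS⟩ := h5 K P
  set C4 := r / 2 + C3 with hC4
  have hC40 : 0 < C4 := by positivity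
  set ε1 := r * ε / (4 * C4) with hε1
  have hε10 : 0 < ε1 := by positivity
  obtain ⟨s, hs⟩ := summable_iff_vanishing_norm.1 (h4 K P) ε1 hε10
  set X : Finset (Ideal (𝓞 K)) := insert ⊤ (s.image Subtype.val) with hX
  have hXs : ∀ k ∈ X, Sm' P k := by
    intro k hk
    rcases Finset.mem_insert.1 hk with rfl | hk
    · exact upt_top P
    · obtain ⟨k', _, rfl⟩ := Finset.mem_image.1 hk
      exact k'.2
  have hph0 : ∀ k : Ideal (𝓞 K), k ≠ ⊥ → 0 ≤ phs k := fun k hk => ((h2 K).2.2 _ hk).1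
  have hphn : ∀ k : Ideal (𝓞 K), k ≠ ⊥ → phs k ≤ nm k := fun k hk =>
    ((h2 K).2.2 _ hk).2.1.trans ((h7 K).1 _ hk).2.2
  set Φ := ∑ k ∈ X, phs k with hΦ
  have hΦ0 : 0 ≤ Φ := Finset.sum_nonneg fun k hk => hph0 k (hXs k hk).1
  set n0 : ℝ := ((Pr K (⊤ : Ideal (𝓞 K))).ncard : ℝ) with hn0
  have hn00 : 0 ≤ n0 := Nat.cast_nonneg _
  set D := a * (C3 * Φ) + C1 * C2 + n0 with hD
  have hD0 : 0 ≤ D := by positivity
  obtain ⟨x₀, hx₀, hsm⟩ := upt_small hD0 (show 0 < a * r * ε / 4 by positivity)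
  refine ⟨X, x₀, hXs, Finset.mem_insert_self _ _, hx₀, fun x hx => ?_⟩
  have hx1 : 1 ≤ x := hx₀.trans hx
  have hx0 : 0 < x := by linarith
  -- the conductors
  have hFfin : {f : Ideal (𝓞 K) | f ≠ ⊥ ∧ nm f ≤ x}.Finite := (upt_fin x).subset fun f h => h.2
  set F := hFfin.toFinset with hF
  have hFm : ∀ f, f ∈ F ↔ f ≠ ⊥ ∧ nm f ≤ x := fun f => by
    rw [hF, Set.Finite.mem_toFinset]; rfl
  have hKfin : {k : Ideal (𝓞 K) | Sm' P k ∧ nm k ≤ x}.Finite := (upt_fin x).subset fun f h => h.2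
  set Kf := hKfin.toFinset with hKf
  have hKm : ∀ k, k ∈ Kf ↔ Sm' P k ∧ nm k ≤ x := fun f => by
    rw [hKf, Set.Finite.mem_toFinset]; rfl
  have hAl : Al K x = ⋃ f ∈ F, Pr K f := by
    ext χ
    simp only [Set.mem_iUnion, hFm, exists_prop]
    constructor
    · intro h
      exact ⟨χ.f, ⟨χ.f_ne, h⟩, rfl⟩
    · rintro ⟨f, ⟨_, hf⟩, hχ⟩
      have hχ' : χ.f = f := hχ
      show nm χ.f ≤ x
      rw [hχ']
      exact hf
  have hPrf : ∀ f ∈ F, (Pr K f).Finite := fun f hf => (h6 K f ((hFm f).1 hf).1).1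
  have hAlf : (Al K x).Finite := by
    rw [hAl]
    exact Set.Finite.biUnion F.finite_toSet fun f hf => hPrf f hf
  refine ⟨hAlf, ?_⟩
  have hcount : ((Al K x).ncard : ℝ) ≤ ∑ f ∈ F, ((Pr K f).ncard : ℝ) := by
    rw [hAl]
    have := Finset.set_ncard_biUnion_le F (fun f => Pr K f)
    exact_mod_cast this
  have hterm : ∀ f ∈ F, ((Pr K f).ncard : ℝ) ≤ a * phs f + C1 + (if f = ⊤ then n0 else 0) := by
    intro f hf
    have hf0 := ((hFm f).1 hf).1
    split_ifs with he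
    · subst he
      have := mul_nonneg ha.le (hph0 _ hf0)
      linarith
    · have := abs_le.1 (hN f hf0 he)
      linarith [this.2]
  have hsumF : ∑ f ∈ F, (if f = (⊤ : Ideal (𝓞 K)) then n0 else 0) ≤ n0 := by
    rw [Finset.sum_ite_eq']
    split_ifs
    · exact le_rfl
    · exact hn00
  have hcard : (F.card : ℝ) ≤ C2 * x := (hC2 x F hx1 fun f hf => (hFm f).1 hf).1
  have hA1 : ((Al K x).ncard : ℝ) ≤ a * ∑ f ∈ F, phs f + C1 * (C2 * x) + n0 := by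
    calc ((Al K x).ncard : ℝ) ≤ ∑ f ∈ F, ((Pr K f).ncard : ℝ) := hcount
      _ ≤ ∑ f ∈ F, (a * phs f + C1 + (if f = ⊤ then n0 else 0)) := Finset.sum_le_sum hterm
      _ = a * ∑ f ∈ F, phs f + C1 * F.card + ∑ f ∈ F, (if f = (⊤ : Ideal (𝓞 K)) then n0 else 0) := by
          rw [Finset.sum_add_distrib, Finset.sum_add_distrib, Finset.sum_const, nsmul_eq_mul,
            Finset.mul_sum]
          ring
      _ ≤ a * ∑ f ∈ F, phs f + C1 * (C2 * x) + n0 := by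
          have := mul_le_mul_of_nonneg_left hcard hC1
          linarith
  have hA2 := upt_phs h2 h3 h7 P x F Kf (fun f hf => (hFm f).1 hf) hKm
  -- the inner sums
  have hin : ∀ k ∈ Kf, 1 ≤ nm k ∧ 1 ≤ x / nm k ∧
      uS K P (x / nm k) ≤ r * (x / nm k) ^ 2 / 2 + C3 * (x / nm k) ^ (7 / 4 : ℝ) := by
    intro k hk
    obtain ⟨hk1, hk2⟩ := (hKm k).1 hk
    have hn1 := upt_one hk1.1
    have hy : 1 ≤ x / nm k := by rw [le_div_iff₀ (by linarith)]; linarith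
    refine ⟨hn1, hy, ?_⟩
    have := abs_le.1 (hS (x / nm k) hy)
    have h' := this.2
    unfold uS
    linarith
  have hKsplit : ∑ k ∈ Kf, phs k * uS K P (x / nm k) =
      ∑ k ∈ Kf.filter (· ∈ X), phs k * uS K P (x / nm k) +
        ∑ k ∈ Kf.filter (¬ · ∈ X), phs k * uS K P (x / nm k) :=
    (Finset.sum_filter_add_sum_filter_not Kf (· ∈ X) _).symm
  have hpart1 : ∑ k ∈ Kf.filter (· ∈ X), phs k * uS K P (x / nm k) ≤
      r * x ^ 2 / 2 * (∑ k ∈ X, phs k / nm k ^ 2) + C3 * Φ * x ^ (7 / 4 : ℝ) := by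
    have ht : ∀ k ∈ Kf.filter (· ∈ X), phs k * uS K P (x / nm k) ≤
        r * x ^ 2 / 2 * (phs k / nm k ^ 2) + C3 * phs k * x ^ (7 / 4 : ℝ) := by
      intro k hk
      obtain ⟨hk1, hk2⟩ := Finset.mem_filter.1 hk
      obtain ⟨b1, b2, b3⟩ := hin k hk1
      have hk0 := hph0 k (hXs k hk2).1
      have e1 : (x / nm k) ^ (7 / 4 : ℝ) ≤ x ^ (7 / 4 : ℝ) :=
        Real.rpow_le_rpow (by linarith) (div_le_self hx0.le b1) (by norm_num)
      have e2 := mul_le_mul_of_nonneg_left e1 hC3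
      have e3 : uS K P (x / nm k) ≤ r * (x / nm k) ^ 2 / 2 + C3 * x ^ (7 / 4 : ℝ) := by linarith
      calc phs k * uS K P (x / nm k) ≤ phs k * (r * (x / nm k) ^ 2 / 2 + C3 * x ^ (7 / 4 : ℝ)) :=
            mul_le_mul_of_nonneg_left e3 hk0
        _ = _ := by
            have : nm k ≠ 0 := by linarith
            field_simp
    calc ∑ k ∈ Kf.filter (· ∈ X), phs k * uS K P (x / nm k)
        ≤ ∑ k ∈ Kf.filter (· ∈ X), (r * x ^ 2 / 2 * (phs k / nm k ^ 2) +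
          C3 * phs k * x ^ (7 / 4 : ℝ)) := Finset.sum_le_sum ht
      _ ≤ ∑ k ∈ X, (r * x ^ 2 / 2 * (phs k / nm k ^ 2) + C3 * phs k * x ^ (7 / 4 : ℝ)) := by
          refine Finset.sum_le_sum_of_subset_of_nonneg
            (fun k hk => (Finset.mem_filter.1 hk).2) fun k hk _ => ?_
          have hk0 := hph0 k (hXs k hk).1
          have : 0 ≤ x ^ (7 / 4 : ℝ) := Real.rpow_nonneg hx0.le _
          positivity
      _ = _ := by
          rw [Finset.sum_add_distrib, ← Finset.mul_sum, ← Finset.sum_mul, ← Finset.mul_sum]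
  have hpart2 : ∑ k ∈ Kf.filter (¬ · ∈ X), phs k * uS K P (x / nm k) ≤ C4 * x ^ 2 * ε1 := by
    have ht : ∀ k ∈ Kf.filter (¬ · ∈ X), phs k * uS K P (x / nm k) ≤ C4 * x ^ 2 * (nm k)⁻¹ := by
      intro k hk
      obtain ⟨hk1, hk2⟩ := Finset.mem_filter.1 hk
      obtain ⟨b1, b2, b3⟩ := hin k hk1
      have hks := ((hKm k).1 hk1).1
      have e1 : (x / nm k) ^ (7 / 4 : ℝ) ≤ (x / nm k) ^ 2 := by
        rw [← Real.rpow_natCast]
        exact Real.rpow_le_rpow_of_exponent_le b2 (by norm_num)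
      have e2 := mul_le_mul_of_nonneg_left e1 hC3
      have e3 : uS K P (x / nm k) ≤ C4 * (x / nm k) ^ 2 := by
        rw [hC4]; linarith
      calc phs k * uS K P (x / nm k) ≤ nm k * (C4 * (x / nm k) ^ 2) :=
            mul_le_mul (hphn k hks.1) e3 (uS_nonneg _ _) (by linarith)
        _ = _ := by
            have : nm k ≠ 0 := by linarith
            field_simp
    have hsub : ∑ k ∈ Kf.filter (¬ · ∈ X), (nm k)⁻¹ ≤ ε1 := by
      set T : Finset {k : Ideal (𝓞 K) // Sm' P k} :=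
        (Kf.filter (¬ · ∈ X)).subtype (fun k => Sm' P k) with hT
      have hdis : Disjoint T s := by
        rw [Finset.disjoint_left]
        intro k hk hks
        rw [hT, Finset.mem_subtype, Finset.mem_filter] at hk
        exact hk.2 (Finset.mem_insert_of_mem (Finset.mem_image_of_mem _ hks))
      have hn := hs T hdis
      have e1 : ∑ k ∈ T, (nm k.1)⁻¹ = ∑ k ∈ Kf.filter (¬ · ∈ X), (nm k)⁻¹ := by
        rw [hT]
        exact Finset.sum_subtype_of_mem (fun k => (nm k)⁻¹)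
          fun k hk => ((hKm k).1 (Finset.mem_filter.1 hk).1).1
      rw [e1] at hn
      exact (le_abs_self _).trans hn.le
    calc ∑ k ∈ Kf.filter (¬ · ∈ X), phs k * uS K P (x / nm k)
        ≤ ∑ k ∈ Kf.filter (¬ · ∈ X), C4 * x ^ 2 * (nm k)⁻¹ := Finset.sum_le_sum ht
      _ = C4 * x ^ 2 * ∑ k ∈ Kf.filter (¬ · ∈ X), (nm k)⁻¹ := by rw [Finset.mul_sum]
      _ ≤ C4 * x ^ 2 * ε1 := mul_le_mul_of_nonneg_left hsub (by positivity)
  have hε1' : C4 * x ^ 2 * ε1 = r * ε / 4 * x ^ 2 := by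
    rw [hε1]
    field_simp
  have hSig : ∑ f ∈ F, phs f ≤ r * x ^ 2 / 2 * (∑ k ∈ X, phs k / nm k ^ 2) +
      C3 * Φ * x ^ (7 / 4 : ℝ) + r * ε / 4 * x ^ 2 := by
    rw [hKsplit] at hA2
    linarith
  have hA3 := mul_le_mul_of_nonneg_left hSig ha.le
  have hx74 : x ≤ x ^ (7 / 4 : ℝ) := by
    calc x = x ^ (1 : ℝ) := (Real.rpow_one x).symm
      _ ≤ x ^ (7 / 4 : ℝ) := Real.rpow_le_rpow_of_exponent_le hx1 (by norm_num)
  have hx74' : 1 ≤ x ^ (7 / 4 : ℝ) := hx1.trans hx74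
  have hsm' := hsm x hx
  have e4 : C1 * (C2 * x) ≤ C1 * C2 * x ^ (7 / 4 : ℝ) := by
    rw [← mul_assoc]
    exact mul_le_mul_of_nonneg_left hx74 (mul_nonneg hC1 hC2')
  have e5 : n0 ≤ n0 * x ^ (7 / 4 : ℝ) := le_mul_of_one_le_right hn00 hx74'
  have e6 : D * x ^ (7 / 4 : ℝ) = a * (C3 * Φ * x ^ (7 / 4 : ℝ)) + C1 * C2 * x ^ (7 / 4 : ℝ) +
      n0 * x ^ (7 / 4 : ℝ) := by rw [hD]; ring
  calc ((Al K x).ncard : ℝ) ≤ a * ∑ f ∈ F, phs f + C1 * (C2 * x) + n0 := hA1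
    _ ≤ a * (r * x ^ 2 / 2 * (∑ k ∈ X, phs k / nm k ^ 2)) + a * (r * ε / 4 * x ^ 2) +
        D * x ^ (7 / 4 : ℝ) := by
        rw [e6]
        linarith
    _ ≤ a * (r * x ^ 2 / 2 * (∑ k ∈ X, phs k / nm k ^ 2)) + a * (r * ε / 4 * x ^ 2) +
        a * r * ε / 4 * x ^ 2 := by linarith
    _ = a * r * (x ^ 2 / 2) * ((∑ k ∈ X, phs k / nm k ^ 2) + ε) := by ring

end Pool.Agent.H50.HH
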